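import Mathlib
import Pool.Agent.N995.Ot1

/-!
# Galois invariants in the homology of singular and open varieties over finitely generated fields of
# characteristic zero

Let `k` be a finitely generated field of characteristic zero and `A` a polarized abelian variety over `k`, of
any dimension, `X` the corresponding complex abelian variety. Suppose that (`SmallTypes`) each simple factor
of `X`

* has dimension at most three, or
* is of Albert type I or II with odd relative dimension, or relative dimension at most three (the
  dimension is unbounded, for instance `End = ℤ` and any odd dimension), or
* has an imaginary quadratic field as its endomorphism algebra, with multiplicities at most three (and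
  trivial discriminant if both are three), or
* has complex multiplication, where the CM part is divided into independent blocks of known kinds;

or that (`FactorsOfSmall`) all simple factors of `X` are factors of one abelian variety of dimension at
most five without fourfold factor `Y` with `End(Y) = ℤ`.

Let `U` be a variety over `k`, singular or smooth, proper or not, and `j ≥ 0`. Let `V` be a good proper cover
of `U` (for instance a resolution of the singularities of a compactification). Suppose that the homology
`H_{2 j}(V ⊗ k̄, ℚ_ℓ(j))` is the sum of the images of the cohomology groups `H^{2 b}(A ⊗ k̄, ℚ_ℓ(b))` under
algebraic correspondences. This is the case for instance if `V` is dominated by a power of `A` or by a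
product of curves whose Jacobians are factors of `A`, and for `U` it includes products of singular or open
curves with such normalizations, semiabelian varieties over factors of `A` and open subvarieties of
generalized Kummer varieties.

Then all Galois invariants of `H_{2 j}(U ⊗ k̄, ℚ_ℓ(j))` are `ℚ_ℓ`-linear combinations of the classes of
algebraic cycles on `U`: the map `c_j` is surjective. The same is true over all finite extensions of `k`.

This is new already for smooth projective `U`, because the base field is any finitely generated field of
characteristic zero, and the variety need not be an abelian variety. The analogue in characteristic `p`, for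
ordinary abelian varieties, is `MP_4776b1_ag.OrdinaryCharacteristicP`.

The proof: the Tate classes on `A` are combinations of Hodge classes in the system `Alg` (for the types of
`FactorsOfSmall` see `MP_90d181_ag.PowersUpToDimensionFive`, for `SmallTypes` the library); the classes in
`Alg` are algebraic by the theorems of Lefschetz and Markman; semisimplicity (Faltings) shows that the
invariants of a sum of images are combinations of images of invariants; and the theory of weights
(Deligne, Jannsen) reduces `U` to `V`.
-/

namespace Pool.Agent.Results.MP_40dc3c_ag.CharacteristicZero

open Module Pool.Agent.Y90 Pool.Agent.N995.OD Pool.Agent.N995.OT TensorProduct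
open Pool.Agent.Y224.TS.St (IsTateModule)

/-- **Surjectivity of `c_j` for singular and open varieties generated by an abelian variety.** The abelian
variety over `k` is given by the complex abelian variety `X`, a polarization `E` and the Galois
representation `ρ` on the Tate module; `W` is the homology group of the variety `U`, with the group `L` of
the classes of cycles, and `WV` is the homology group of a good proper cover `V`. -/
theorem result (X : AV) (hX : SmallTypes X ∨ FactorsOfSmall X)
    (E : X.H → X.H → ℚ) (hE : Pool.Agent.Y90.St.IsPolarization X.per E)
    (ℓ : ℕ) [Fact ℓ.Prime] [Algebra ℚ_[ℓ] ℂ] [Algebra.IsAlgebraic ℚ_[ℓ] ℂ]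
    {Γ : Type} [Group Γ] (ρ : Representation ℚ_[ℓ] Γ (ℚ_[ℓ] ⊗[ℚ] X.H)) (χ : Γ →* ℚ_[ℓ])
    (hρ : IsTateModule X.per E ρ χ) {W WV : Type} [AddCommGroup W] [Module ℚ_[ℓ] W]
    [AddCommGroup WV] [Module ℚ_[ℓ] WV] [Module ℚ WV] (RV : Representation ℚ_[ℓ] Γ WV)
    (Z : Submodule ℚ WV) (LV : AddSubgroup WV) (R : Representation ℚ_[ℓ] Γ W) (L : AddSubgroup W)
    (u : WV →ₗ[ℚ_[ℓ]] W) (hV : IsSmoothProjective RV Z LV) (hf : IsSumOfImages X ρ χ RV Z)
    (hU : IsGoodCover RV LV R L u) :
    Submodule.span ℚ_[ℓ] (L : Set W) = R.invariants :=
  main₀ X hX hE hρ hV hf hU

end Pool.Agent.Results.MP_40dc3c_ag.CharacteristicZero
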