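import Pool.Agent.N174.Cyc.OMain

/-!
# The Tate conjecture for cyclic coverings times a singular variety

Let `X ⟶ Y` be a cyclic covering of odd degree `d` of smooth projective varieties over a finitely
generated field `F`, with the automorphism `σ` of `X` over `Y`, and let `U` be any variety over
`F`, singular or open, of dimension `e`, with its Borel-Moore homology: `M` is the graded module
with `M^i = H_(2e-i)(U)(-e)`. The vanishing cohomology `E = ker f_*` is the sum of the parts
`E_c` on which `σ^* = c`, for the roots of unity `c ≠ 1` of order dividing `d`, where `E_c` is dual
to the part of `c⁻¹`. Suppose that the `E_c` are irreducible under all subgroups of finite index of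
the Galois group `Γ`, of dimension greater than `n + 1` (and than `2`), and that some `g ∈ Γ` acts
trivially on the cohomology of `Y` and on the homology of `U` and by the Picard-Lefschetz formula
of a cyclic covering on `E` (so that it acts on the `E_c` as complex reflections with the
eigenvalues `c` or `-c`). Then the Tate conjecture for `Y ^ (n + 1) × U` implies the Tate conjecture
for `X ^ (n + 1) × U`, for cycles of all dimensions. The theorem can be iterated: `X` may be the top
of a tower of such coverings of `Y`.

This is the unitary analogue of the Lefschetz theorem for morphisms with a vanishing cohomology
which is irreducible, symplectic or orthogonal: all Tate classes are combinations of products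
of the eigenparts `(1 / d) ∑ c^i (σ^i × 1)^*` of the vanishing part of the diagonal of `X` and of
pull-backs of Tate classes on `Y ^ (n + 1) × U`. No semisimplicity, no weights and no resolution or
compactification of `U` are used.

For example, let `Y` and `U` be defined over `F` and let `X` over `F(t)` be the generic member of a
pencil of cyclic coverings of `Y` of degree `d`, branched along the members of a Lefschetz pencil of
sections of the `d`-th power of a sufficiently ample line bundle.
-/

open Pool.Agent.H914 Pool.Agent.TH125.Gal Pool.Agent.N174.Lef.Open Pool.Agent.N174.Cyc

universe u v w

namespace Pool.Agent.Results.MP_40dc3c_ag.CyclicCoveringsTimesSingular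

/-- **The Tate conjecture for cyclic coverings times a singular variety.** -/
theorem result {k : Type u} [Field k] {𝒱 : VarClass k} {ops : CycleOps 𝒱}
    {W : WeilCohomology.{u, v} ops} {Γ : Type w} [Group Γ] {χ : Γ →* W.Kˣ}
    (hK : FewRootsOfUnity W.K) {X Y V V' : GVar W Γ} {n : ℕ} {U : OpenVar W Γ}
    (h : CyclicTowerOver χ (n + 1) U Y X) (hX : IsPower X n V) (hY : IsPower Y n V')
    (hT : TateTimes χ V' U) : TateTimes χ V U :=
  Open.tate_open_cyclic hK h hX hY hT

end Pool.Agent.Results.MP_40dc3c_ag.CyclicCoveringsTimesSingular
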