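import Pool.Agent.N882.UE.K1
import Pool.Agent.Q282.UZ.Sys
import Pool.Agent.Q193.LT.Prime

/-!
# MP_40dc3c_ag: cycle class maps of all singular varieties over a finite field

`T : Homology k Ω` are data of motivic homology `H_i^M(X, ℚ(j)) = CH_j(X, i - 2 j) ⊗ ℚ` and of `ℓ`-adic
homology `H_i(X, ℚ_ℓ(j)) ⊗ Ω` of the schemes `X` over the finite field `k`, with the Frobenius and the
regulator (for `i = 2 j` this is the cycle class map `c_j`). `IsTheory T` and `HasWeights T` list the
known properties of these groups which are used. `FT True X` means that `X` is a variety (separated and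
of finite type over `k`).

`Onto T X`: for all `j` the cycle class map `c_j` of `X` is surjective, and the eigenvalue one of the
Frobenius on `H_(2j)(X, ℚ_ℓ(j))` is semisimple.

`Kone T X`: for all `j` the regulator `CH_j(X, 1) ⊗ ℚ_ℓ → H_(2j+1)(X, ℚ_ℓ(j))^G` is surjective and
`CH_j(X) ⊗ ℚ_ℓ → H_(2j)(X, ℚ_ℓ(j))^G` is bijective, and the eigenvalue one is semisimple on both spaces.

`bilS t` is the closed subscheme of the affine space given by the bilinear equations
`∑ t_ijl x_i y_j = 0`, `l = 1, …, c`, and `hypS t` is the affine cubic hypersurface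
`∑ t_ijl x_i y_j z_l = 1`; `sysS k E` is given by the equations `∑_{(i, j) ∈ E_l} x_i y_j = 0`, and
`tripS k H` is the hypersurface `∑_{(i, j, l) ∈ H} x_i y_j z_l = 1`.
-/

set_option autoImplicit false

open CategoryTheory AlgebraicGeometry Pool.Agent.Y116.UV Pool.Agent.N882.UE

namespace Pool.Agent.Results.MP_40dc3c_ag.SingularToSmooth

/-- **Theorem.** Let `T` be motivic and `ℓ`-adic homology of the schemes over the finite field `k` (the
conjecture `TB` is known for the point `Spec k`).
(1) For every trilinear form `t`, the cycle class maps of the (singular) system of bilinear equations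
`∑ t_ijl x_i y_j = 0` are surjective with semisimple eigenvalue one iff the smooth hypersurface
`∑ t_ijl x_i y_j z_l = 1` has the property `Kone`.
(2) The following are equivalent: `Onto` for all varieties over `k`; `Onto` for the systems of bilinear
equations over `k`; `Kone` for the smooth hypersurfaces `t(x, y, z) = 1` of the trilinear forms over `k`.
(3) If `k` is a prime field, the following are equivalent: `Onto` for all varieties over `k`; `Onto` for
the systems of bilinear equations with coefficients `1` and at most three terms in every equation;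
`Kone` for the smooth hypersurfaces `∑_{(i, j, l) ∈ H} x_i y_j z_l = 1` of the finite sets `H`.
(4) The hypersurfaces are smooth. -/
theorem result {k Ω : Type} [Field k] [Finite k] [Field Ω] [CharZero Ω]
    (T : Homology k Ω) (hT : IsTheory T) (hW : HasWeights T) (point : TB T (aff k k)) :
    (∀ (a b c : ℕ) (t : Fin a → Fin b → Fin c → k),
      Onto T (Pool.Agent.Q282.UK.bilS t) ↔ Kone T (hypS t)) ∧
    [(∀ X : Sch k, FT True X → Onto T X),
      (∀ (a b c : ℕ) (t : Fin a → Fin b → Fin c → k), Onto T (Pool.Agent.Q282.UK.bilS t)),
      (∀ (a b c : ℕ) (t : Fin a → Fin b → Fin c → k), Kone T (hypS t))].TFAE ∧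
    ((Nat.card k).Prime →
      [(∀ X : Sch k, FT True X → Onto T X),
        (∀ (a b c : ℕ) (E : Fin c → Finset (Fin a × Fin b)), (∀ l, (E l).card ≤ 3) →
          Onto T (Pool.Agent.Q282.UZ.sysS k E)),
        (∀ (a b c : ℕ) (H : Finset (Fin a × Fin b × Fin c)), Kone T (tripS k H))].TFAE) ∧
    ∀ (a b c : ℕ) (t : Fin a → Fin b → Fin c → k), Smooth (hypS t).hom := by
  classical
  have hC := clo_onto hT hW
  have key : ∀ (a b c : ℕ) (t : Fin a → Fin b → Fin c → k),
      Onto T (Pool.Agent.Q282.UK.bilS t) ↔ Kone T (hypS t) := fun a b c t => onto_hyp hT hW point t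
  refine ⟨key, ?_, fun hp => ?_, ?_⟩
  · tfae_have 1 → 3 := fun h a b c t => (key a b c t).mp (h _ (ft_aff True))
    tfae_have 3 → 2 := fun h a b c t => (key a b c t).mpr (h a b c t)
    tfae_have 2 → 1 := fun h X hX =>
      Pool.Agent.Q282.UK.clo_universal (S := Set.univ) hC trivial trivial
        (fun a b c t _ => h a b c t) presents_univ X hX
    tfae_finish
  · have h13 : (∀ (a b c : ℕ) (H : Finset (Fin a × Fin b × Fin c)), Kone T (tripS k H)) →
        ∀ X : Sch k, FT True X → Onto T X := by
      intro h X hX
      refine Pool.Agent.Q282.UK.clo_universal (S := {0, 1}) hC (Or.inl rfl) (Or.inr rfl) ?_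
        (Pool.Agent.Q193.LT.presents_frac (frac_of_prime hp)) X hX
      intro a b c t ht
      let H : Finset (Fin a × Fin b × Fin c) := Finset.univ.filter fun h => t h.1 h.2.1 h.2.2 = 1
      have h1 : t = fun i j l => if (i, j, l) ∈ H then (1 : k) else 0 := by
        funext i j l
        have hm : (i, j, l) ∈ H ↔ t i j l = 1 := by
          rw [Finset.mem_filter]
          exact ⟨fun h => h.2, fun h => ⟨Finset.mem_univ _, h⟩⟩
        by_cases h : t i j l = 1
        · rw [if_pos (hm.mpr h), h]
        · rw [if_neg fun h2 => h (hm.mp h2)]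
          rcases ht i j l with h2 | h2
          · exact h2
          · exact absurd h2 h
      have h2 := h a b c H
      unfold tripS Trip at h2
      rw [← tri_ind, ← h1] at h2
      exact (key a b c t).mpr h2
    have h12 := Pool.Agent.Q282.UZ.three_iff (Pool.Agent.Q282.UZ.short_presents (int_surj hp)) hC
    tfae_have 1 ↔ 2 := h12
    tfae_have 3 → 1 := h13
    tfae_have 1 → 3 := by
      intro h a b c H
      have h2 := (key a b c fun i j l => if (i, j, l) ∈ H then (1 : k) else 0).mp
        (h _ (ft_aff True))
      unfold hypS Hyp at h2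
      rw [tri_ind] at h2
      exact h2
    tfae_finish
  · intro a b c t
    exact Pool.Agent.Z125.UN.smooth_hypS t

end Pool.Agent.Results.MP_40dc3c_ag.SingularToSmooth
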