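import Mathlib
import Pool.Agent.N144.OF.Gen3

/-!
# The strong Tate conjecture for the reductions of a variety, in any codimension, from one reduction

Let `K` be a number field, `X` a smooth projective variety over `K` and `Y = X ^ n` (or a product of
several varieties); `ρ` is the representation of `G_K` on the cohomology of `X`, and `τ_ℓ` that on
`H^{2j}(Y_K̄, ℚ_ℓ(j))`. For `v ∉ S` (good reduction) the characteristic polynomial `P_v` of the geometric
Frobenius on `H^{2j}(Y_K̄, ℚ_ℓ(j))`, the cohomology of `Y_v`, is in `ℚ[X]` and does not depend on `ℓ`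
(Deligne). We consider `r` cycles `Z_1(v), …, Z_r(v)` of codimension `j` and `r` cycles `Z'_1(v), …, Z'_r(v)`
of complementary codimension on the reductions `Y_v`, given by the same construction for all `v`: they
are obtained from the specialisations of some cycles on powers of `X` over `K` and from the graph of the
Frobenius endomorphism of `X_v` by products, pull-backs and push-forwards. So the
intersection numbers `G_v(a, c) = Z_a(v) · Z'_c(v)` are given by fixed polynomials `F a c` in the matrix
entries of the Frobenius on the cohomology of `X` (`IsPolynomialLaw`).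

Strong Tate conjecture for `Y_v` in codimension `j` (`StrongTateAt`): for all `ℓ`, over all finite extensions of
the residue field, the classes of cycles span the space of the Tate classes, Frobenius is semisimple at the
eigenvalue `1` and homological and numerical equivalence coincide.

**Theorem.** There is an open normal subgroup `U` of `G_K`, that is a finite Galois extension `K'` of `K`,
with `K' = K` if the algebraic monodromy group is connected for one prime number `ℓ₀`, such that for
EVERY place `v₀ ∉ S` prime to `ℓ₀` for which at most `r` of the roots of `P_{v₀}` (with multiplicities) are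
roots of unity:
* if the intersection matrix `G_{v₀}` is nonsingular (so the strong Tate conjecture in codimension `j`
  holds for `Y_{v₀}`, by means of the cycles `Z_a`), then the strong Tate conjecture in codimension `j` holds
  for `Y_v` for `100` percent of the places `v` whose Frobenius elements in `Gal(K'/K)` are conjugate to that
  of `v₀`, so for a set of places of lower density at least `1 / [K' : K]`;
* if the intersection matrix for the `k`-th power of the Frobenius at `v₀` is nonsingular (the cycles of the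
  same kind on `Y_{v₀}` over the extension of degree `k`), the same is true for `100` percent of the
  places whose Frobenius elements in `Gal(K'/K)` are conjugate to the `k`-th power of that of `v₀`; in
  particular for `100` percent of the places which split completely in `K'`, if `k` is divisible by the order of
  the Frobenius element of `v₀` in `Gal(K'/K)`.

So the strong Tate conjecture for one reduction (by means of cycles of this kind, e.g. for an abelian
variety `X` with a reduction of maximal angle rank, or a surface with a reduction whose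
Frobenius eigenvalues on the transcendental part satisfy only the trivial relations) implies it for a
positive proportion of the reductions, for the powers of `X` too, where the classes of the graphs of
Frobenius do not lift to characteristic zero. Nothing is assumed in characteristic zero: no Tate or
Hodge conjecture, no semisimplicity or Mumford-Tate group, and no standard conjectures.

The proof. The determinant of the intersection matrix and the derivatives of the characteristic
polynomial of a power of Frobenius at `1` (these give the multiplicities of the roots of unity, as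
their orders are bounded) are polynomial class functions on `G_K`. By the Noetherian property there
is `U` such that on every coset of `U` a polynomial function is zero or its zeros have Haar measure zero;
Chebotarev's theorem gives the densities. Where they do not vanish the classes `Z_a` are independent modulo
numerical equivalence and their number is the number of all generalised Tate classes.
-/

set_option autoImplicit false

namespace Pool.Agent.Results.MP_40dc3c_ag.StrongTateFromOneReduction

open Polynomial Filter Topology NumberField IsDedekindDomain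

/-- the absolute Galois group of `K`, with its profinite (Krull) topology -/
abbrev AbsoluteGaloisGroup (K : Type) [Field K] : Type := Gal(AlgebraicClosure K/K)

/-- `σ` is an (arithmetic) Frobenius element at the prime `v` of the number field `K`: for some prime
`Q` of the algebraic closure above `v` it acts on the residue field as `x ↦ x ^ N(v)` -/
def IsFrobenius {K : Type} [Field K] [NumberField K] (v : HeightOneSpectrum (𝓞 K))
    (σ : AbsoluteGaloisGroup K) : Prop :=
  ∃ Q : Ideal (𝓞 (AlgebraicClosure K)), Q.IsMaximal ∧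
    Q.comap (algebraMap (𝓞 K) (𝓞 (AlgebraicClosure K))) = v.asIdeal ∧
    ∀ x : 𝓞 (AlgebraicClosure K), σ • x - x ^ Ideal.absNorm v.asIdeal ∈ Q

variable {K : Type} [Field K] [NumberField K] {N b r : ℕ}

/-- `τ` is the representation on `H^{2j}(Y_K̄, ℚ_ℓ(j))`: it is continuous and for all `v ∉ S` which are
prime to `ℓ` the characteristic polynomial of the geometric Frobenius elements `σ⁻¹` (`σ` arithmetic) at
`v` is `P v` -/
def IsCohomology (S : Set (HeightOneSpectrum (𝓞 K))) (P : HeightOneSpectrum (𝓞 K) → ℚ[X])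
    (ℓ : ℕ) [Fact ℓ.Prime] (τ : AbsoluteGaloisGroup K →* Matrix (Fin b) (Fin b) ℚ_[ℓ]) : Prop :=
  Continuous τ ∧ ∀ v ∉ S, (ℓ : 𝓞 K) ∉ v.asIdeal → ∀ σ : AbsoluteGaloisGroup K, IsFrobenius v σ →
    (τ σ⁻¹).charpoly = (P v).map (algebraMap ℚ ℚ_[ℓ])

/-- the value of the polynomial `F` at the matrix entries of `ρ g` -/
noncomputable def value {ℓ : ℕ} [Fact ℓ.Prime]
    (ρ : AbsoluteGaloisGroup K →* Matrix (Fin N) (Fin N) ℚ_[ℓ])
    (F : MvPolynomial (Fin N × Fin N) ℚ_[ℓ]) (g : AbsoluteGaloisGroup K) : ℚ_[ℓ] :=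
  MvPolynomial.eval (fun x => ρ g x.1 x.2) F

/-- the matrix of the values of the polynomials `F a c` -/
noncomputable def values {ℓ : ℕ} [Fact ℓ.Prime]
    (ρ : AbsoluteGaloisGroup K →* Matrix (Fin N) (Fin N) ℚ_[ℓ])
    (F : Fin r → Fin r → MvPolynomial (Fin N × Fin N) ℚ_[ℓ]) (g : AbsoluteGaloisGroup K) :
    Matrix (Fin r) (Fin r) ℚ_[ℓ] :=
  Matrix.of fun a c => value ρ (F a c) g

/-- the intersection numbers `G v a c` are given by the class functions `F a c`, polynomials in the
matrix entries of the geometric Frobenius for the continuous representation `ρ` -/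
def IsPolynomialLaw (S : Set (HeightOneSpectrum (𝓞 K))) {ℓ : ℕ} [Fact ℓ.Prime]
    (ρ : AbsoluteGaloisGroup K →* Matrix (Fin N) (Fin N) ℚ_[ℓ])
    (F : Fin r → Fin r → MvPolynomial (Fin N × Fin N) ℚ_[ℓ])
    (G : HeightOneSpectrum (𝓞 K) → Matrix (Fin r) (Fin r) ℚ) : Prop :=
  Continuous ρ ∧ (∀ σ t : AbsoluteGaloisGroup K, values ρ F (t * σ * t⁻¹) = values ρ F σ) ∧
    ∀ v ∉ S, (ℓ : 𝓞 K) ∉ v.asIdeal → ∀ σ : AbsoluteGaloisGroup K, IsFrobenius v σ →
      values ρ F σ⁻¹ = (G v).map (algebraMap ℚ ℚ_[ℓ])

/-- `D` is as the span of the classes of all cycles of codimension `j` on `Y_v` over an algebraic closure of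
the residue field, `B` the matrix of Frobenius: the elements of `D` are fixed by powers of `B`; the `z a ∈ D` are as
the classes of the `Z_a(v)` and `φ c` as the intersection with `Z'_c(v)`, so `φ c (z a) = G a c` -/
def IsCycleSpan {F : Type} [Field F] [Algebra ℚ F] (B : Matrix (Fin b) (Fin b) F)
    (G : Matrix (Fin r) (Fin r) ℚ) (D : Submodule F (Fin b → F)) (z : Fin r → Fin b → F)
    (φ : Fin r → Module.Dual F (Fin b → F)) : Prop :=
  (∀ x ∈ D, ∃ k, 0 < k ∧ (Matrix.toLin' B ^ k) x = x) ∧ (∀ a, z a ∈ D) ∧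
    ∀ a c, φ c (z a) = algebraMap ℚ F (G a c)

/-- the strong Tate statement: `D` has dimension `r`; for all `k > 0` all generalised eigenvectors of `B ^ k` for
the eigenvalue `1` belong to `D` and are fixed by `B ^ k`; and an element of `D` on which all `φ c` vanish is
zero (homological and numerical equivalence) -/
def StrongTate {F : Type} [Field F] [Algebra ℚ F] (B : Matrix (Fin b) (Fin b) F)
    (G : Matrix (Fin r) (Fin r) ℚ) : Prop :=
  ∀ (D : Submodule F (Fin b → F)) (z : Fin r → Fin b → F) (φ : Fin r → Module.Dual F (Fin b → F)),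
    IsCycleSpan B G D z φ →
      Module.finrank F D = r ∧
      (∀ k : ℕ, 0 < k → ∀ x ∈ Module.End.maxGenEigenspace (Matrix.toLin' B ^ k) 1,
        x ∈ D ∧ (Matrix.toLin' B ^ k) x = x) ∧
      ∀ x ∈ D, (∀ c, φ c x = 0) → x = 0

/-- **the strong Tate conjecture in codimension `j` for `Y_v`**, for all `ℓ` prime to `v` -/
def StrongTateAt (τ : ∀ (ℓ : ℕ) [Fact ℓ.Prime], AbsoluteGaloisGroup K →* Matrix (Fin b) (Fin b) ℚ_[ℓ])
    (G : HeightOneSpectrum (𝓞 K) → Matrix (Fin r) (Fin r) ℚ) (v : HeightOneSpectrum (𝓞 K)) : Prop :=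
  ∀ (ℓ : ℕ) [Fact ℓ.Prime], (ℓ : 𝓞 K) ∉ v.asIdeal → ∀ σ : AbsoluteGaloisGroup K, IsFrobenius v σ →
    StrongTate (τ ℓ σ⁻¹) (G v)

/-- the algebraic monodromy group is connected: a polynomial relation between the matrix entries of `ρ` and
`τ` which holds on an open subgroup holds everywhere -/
def HasConnectedMonodromy {ℓ : ℕ} [Fact ℓ.Prime]
    (ρ : AbsoluteGaloisGroup K →* Matrix (Fin N) (Fin N) ℚ_[ℓ])
    (τ : AbsoluteGaloisGroup K →* Matrix (Fin b) (Fin b) ℚ_[ℓ]) : Prop :=
  ∀ (F : MvPolynomial ((Fin N × Fin N) ⊕ (Fin b × Fin b)) ℚ_[ℓ]) (U : Subgroup (AbsoluteGaloisGroup K)),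
    IsOpen (U : Set (AbsoluteGaloisGroup K)) →
    (∀ u ∈ U, MvPolynomial.eval (Sum.elim (fun x => ρ u x.1 x.2) (fun x => τ u x.1 x.2)) F = 0) →
    ∀ g, MvPolynomial.eval (Sum.elim (fun x => ρ g x.1 x.2) (fun x => τ g x.1 x.2)) F = 0

/-- some Frobenius element at `v` has a conjugate in the coset `γ U` -/
def FrobeniusInCoset (U : Subgroup (AbsoluteGaloisGroup K)) (γ : AbsoluteGaloisGroup K)
    (v : HeightOneSpectrum (𝓞 K)) : Prop :=
  ∃ σ : AbsoluteGaloisGroup K, (∃ t : AbsoluteGaloisGroup K, γ⁻¹ * (t * σ * t⁻¹) ∈ U) ∧ IsFrobenius v σ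

/-- the number of the places `v` with `N(v) ≤ N` and the property `A`, divided by `π(N)` -/
noncomputable def proportion (A : HeightOneSpectrum (𝓞 K) → Prop) (N : ℕ) : ℝ :=
  (Nat.card {v : HeightOneSpectrum (𝓞 K) // Ideal.absNorm v.asIdeal ≤ N ∧ A v} : ℝ) /
    (Nat.primeCounting N : ℝ)

/-- the set of places with the property `A` has natural density zero -/
def HasDensityZero (A : HeightOneSpectrum (𝓞 K) → Prop) : Prop := Tendsto (proportion A) atTop (𝓝 0)

/-- the set of places with the property `A` has lower natural density at least `δ` -/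
def HasLowerDensityAtLeast (A : HeightOneSpectrum (𝓞 K) → Prop) (δ : ℝ) : Prop :=
  ∀ ε : ℝ, 0 < ε → ∀ᶠ N : ℕ in atTop, δ - ε ≤ proportion A N

/-- the number of the complex roots (with multiplicities) which are roots of unity -/
noncomputable def numberOfRootsOfUnity (P : ℚ[X]) : ℕ := by
  classical
  exact ((P.map (algebraMap ℚ ℂ)).roots.countP fun a => ∃ k : ℕ, 0 < k ∧ a ^ k = 1)

/-- **The strong Tate conjecture for the reductions, in any codimension, from one reduction.** -/
theorem result (K : Type) [Field K] [NumberField K] (N b r : ℕ)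
    (S : Set (HeightOneSpectrum (𝓞 K))) (hS : S.Finite) (P : HeightOneSpectrum (𝓞 K) → ℚ[X])
    (τ : ∀ (ℓ : ℕ) [Fact ℓ.Prime], AbsoluteGaloisGroup K →* Matrix (Fin b) (Fin b) ℚ_[ℓ])
    (hτ : ∀ (ℓ : ℕ) [Fact ℓ.Prime], IsCohomology S P ℓ (τ ℓ)) (ℓ₀ : ℕ) [Fact ℓ₀.Prime]
    (ρ : AbsoluteGaloisGroup K →* Matrix (Fin N) (Fin N) ℚ_[ℓ₀])
    (F : Fin r → Fin r → MvPolynomial (Fin N × Fin N) ℚ_[ℓ₀])
    (G : HeightOneSpectrum (𝓞 K) → Matrix (Fin r) (Fin r) ℚ) (hG : IsPolynomialLaw S ρ F G) :
    ∃ U : Subgroup (AbsoluteGaloisGroup K), U.Normal ∧ IsOpen (U : Set (AbsoluteGaloisGroup K)) ∧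
      (HasConnectedMonodromy ρ (τ ℓ₀) → U = ⊤) ∧
      ∀ v₀ ∉ S, (ℓ₀ : 𝓞 K) ∉ v₀.asIdeal → numberOfRootsOfUnity (P v₀) ≤ r → ∀ σ₀, IsFrobenius v₀ σ₀ →
        ((G v₀).det ≠ 0 →
          StrongTateAt τ G v₀ ∧
          HasDensityZero (fun v => FrobeniusInCoset U σ₀ v ∧ ¬ StrongTateAt τ G v) ∧
          HasLowerDensityAtLeast (StrongTateAt τ G) (1 / (U.index : ℝ))) ∧
        ∀ k : ℕ, 0 < k → (values ρ F (σ₀⁻¹ ^ k)).det ≠ 0 →
          HasDensityZero (fun v => FrobeniusInCoset U (σ₀ ^ k) v ∧ ¬ StrongTateAt τ G v) ∧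
          HasLowerDensityAtLeast (StrongTateAt τ G) (1 / (U.index : ℝ)) := by
  obtain ⟨U, hN, hU, hmin, htop⟩ := Pool.Agent.N144.OF.exists_sub
    (Pool.Agent.N144.OF.dsum (Pool.Agent.N144.OF.dual ρ) (Pool.Agent.N144.OF.dual (τ ℓ₀)))
  refine ⟨U, hN, hU, fun h => htop (Pool.Agent.N144.OF.pair_min ρ (τ ℓ₀) h), ?_⟩
  intro v₀ hv₀ hℓv h0 σ₀ hσ₀
  have hrw : ∀ v, Pool.Agent.N144.OF.StrongAt τ G v → StrongTateAt τ G v := by
    intro v h ℓ _ hℓ σ hσ D z φ hD
    exact h ℓ hℓ σ hσ D z φ hD.1 hD.2.1 hD.2.2
  have hrw' : ∀ v, StrongTateAt τ G v → Pool.Agent.N144.OF.StrongAt τ G v := by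
    intro v h ℓ _ hℓ σ hσ D z φ h1 h2 h3
    exact h ℓ hℓ σ hσ D z φ ⟨h1, h2, h3⟩
  have heq : Pool.Agent.N144.OF.StrongAt τ G = StrongTateAt τ G :=
    funext fun v => propext ⟨hrw v, hrw' v⟩
  have key : ∀ k : ℕ, 0 < k → (values ρ F (σ₀⁻¹ ^ k)).det ≠ 0 →
      HasDensityZero (fun v => FrobeniusInCoset U (σ₀ ^ k) v ∧ ¬ StrongTateAt τ G v) ∧
      HasLowerDensityAtLeast (StrongTateAt τ G) (1 / (U.index : ℝ)) := by
    intro k hk hdet
    have h := Pool.Agent.N144.OF.strong_main hS hτ ℓ₀ ρ hG.1 F hG.2.1 G hG.2.2 U hU hmin v₀ hv₀ hℓv h0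
      σ₀ hσ₀ k hk hdet
    rw [heq] at h
    exact h
  refine ⟨fun hdet => ?_, key⟩
  have h1 : (values ρ F (σ₀⁻¹ ^ 1)).det ≠ 0 := by
    rw [pow_one, hG.2.2 v₀ hv₀ hℓv σ₀ hσ₀]
    have h4 : ((G v₀).map (algebraMap ℚ ℚ_[ℓ₀])).det = algebraMap ℚ ℚ_[ℓ₀] (G v₀).det :=
      (RingHom.map_det _ _).symm
    rw [h4]
    exact (map_ne_zero_iff _ (algebraMap ℚ ℚ_[ℓ₀]).injective).mpr hdet
  have h2 := key 1 one_pos h1
  rw [pow_one] at h2
  refine ⟨hrw v₀ (Pool.Agent.N144.OF.strongAt_of hτ G hv₀ hdet ?_), h2⟩
  obtain ⟨h3, h4⟩ := Pool.Agent.N144.OF.deg_P hτ ℓ₀ hv₀ hℓv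
  rw [← Pool.Agent.N144.OF.unity_eq h3 h4]
  exact h0

end Pool.Agent.Results.MP_40dc3c_ag.StrongTateFromOneReduction
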